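import Mathlib
import Pool.Agent.Q133.CircGraph

/-!
The extreme points of the convex hull of the conjugate degree sequences of the graphs on `n`
vertices, and the graphs which realise them.
-/

namespace Pool.Agent.Results.MP_1867d3_co.ExtremePoints

open Finset
open scoped Classical

/-- The conjugate degree sequence `d* = (d*_1, ..., d*_n)` of a graph on `n` vertices:
`d*_k` is the number of vertices of degree at least `k`; here `d*_k` is the coordinate `k - 1`. -/
noncomputable def conj {n : ℕ} (G : SimpleGraph (Fin n)) : Fin n → ℝ :=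
  fun k => ((univ.filter fun v => (k : ℕ) + 1 ≤ G.degree v).card : ℝ)

/-- The convex hull `C_n` of the conjugate degree sequences of the graphs on `n` vertices. -/
def hull (n : ℕ) : Set (Fin n → ℝ) := convexHull ℝ (Set.range (conj (n := n)))

/-- The point `(n, ..., n, 0, ..., 0)` with `r` entries equal to `n`. -/
def regPt (n r : ℕ) : Fin n → ℝ := fun k => if (k : ℕ) < r then (n : ℝ) else 0

/-- The point with the coordinates `(n - 1) [k ≤ r] + [k ≤ s]`. -/
def nearPt (n r s : ℕ) : Fin n → ℝ :=
  fun k => (if (k : ℕ) < r then (n : ℝ) - 1 else 0) + (if (k : ℕ) < s then 1 else 0)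

/-! ### Degree distributions -/

/-- the number of vertices of degree `u` -/
noncomputable def num {n : ℕ} (G : SimpleGraph (Fin n)) : Fin n → ℝ :=
  fun u => ((univ.filter fun v => G.degree v = (u : ℕ)).card : ℝ)

/-- partial sums from above -/
noncomputable def T (n : ℕ) : (Fin n → ℝ) →ₗ[ℝ] (Fin n → ℝ) where
  toFun N k := ∑ u ∈ univ.filter (fun u => k < u), N u
  map_add' N M := by
    funext k
    simp [sum_add_distrib]
  map_smul' c N := by
    funext k
    simp [mul_sum]

lemma T_apply {n : ℕ} (N : Fin n → ℝ) (k : Fin n) :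
    T n N k = ∑ u ∈ univ.filter (fun u => k < u), N u := rfl

lemma deg_lt {n : ℕ} (G : SimpleGraph (Fin n)) (v : Fin n) : G.degree v < n := by
  have := G.degree_lt_card_verts v
  rwa [Fintype.card_fin] at this

lemma conj_eq {n : ℕ} (G : SimpleGraph (Fin n)) : conj G = T n (num G) := by
  funext k
  rw [T_apply]
  unfold conj num
  rw [← Nat.cast_sum]
  congr 1
  rw [card_eq_sum_card_fiberwise (f := fun v => (⟨G.degree v, deg_lt G v⟩ : Fin n))
    (t := univ.filter (fun u => k < u))]
  · refine sum_congr rfl fun u hu => ?_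
    rw [mem_filter] at hu
    congr 1
    ext v
    simp only [mem_filter, mem_univ, true_and]
    constructor
    · rintro ⟨h1, h2⟩
      rw [← h2]
    · intro h
      refine ⟨?_, Fin.ext h⟩
      rw [h]
      exact hu.2
  · intro v hv
    simp only [coe_filter, mem_univ, true_and, Set.mem_ofPred_eq] at hv ⊢
    rw [Fin.lt_def]
    exact hv

/-- the polytope of the degree distributions -/
def P (n : ℕ) : Set (Fin n → ℝ) :=
  {N | (∀ u, 0 ≤ N u) ∧ ∑ u, N u = n ∧
    (Odd n → ∑ u ∈ univ.filter (fun u : Fin n => Odd (u : ℕ)), N u ≤ n - 1)}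

lemma P_convex (n : ℕ) : Convex ℝ (P n) := by
  intro x hx y hy a b ha hb hab
  refine ⟨fun u => ?_, ?_, fun hn => ?_⟩
  · have := hx.1 u
    have := hy.1 u
    simp only [Pi.add_apply, Pi.smul_apply, smul_eq_mul]
    positivity
  · simp only [Pi.add_apply, Pi.smul_apply, smul_eq_mul, sum_add_distrib, ← mul_sum]
    rw [hx.2.1, hy.2.1, ← add_mul, hab, one_mul]
  · simp only [Pi.add_apply, Pi.smul_apply, smul_eq_mul, sum_add_distrib, ← mul_sum]
    have h1 := mul_le_mul_of_nonneg_left (hx.2.2 hn) ha
    have h2 := mul_le_mul_of_nonneg_left (hy.2.2 hn) hb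
    have h3 : a * ((n : ℝ) - 1) + b * ((n : ℝ) - 1) = n - 1 := by rw [← add_mul, hab, one_mul]
    linarith

lemma num_sum {n : ℕ} (G : SimpleGraph (Fin n)) : ∑ u, num G u = n := by
  unfold num
  rw [← Nat.cast_sum]
  congr 1
  have h := card_eq_sum_card_fiberwise (s := (univ : Finset (Fin n)))
    (f := fun v => (⟨G.degree v, deg_lt G v⟩ : Fin n)) (t := univ) (fun v _ => by simp)
  rw [card_univ, Fintype.card_fin] at h
  refine Eq.trans ?_ h.symm
  refine sum_congr rfl fun u _ => ?_
  congr 1
  ext v
  simp only [mem_filter, mem_univ, true_and]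
  exact ⟨fun h => Fin.ext h, fun h => by rw [← h]⟩

lemma num_odd {n : ℕ} (G : SimpleGraph (Fin n)) :
    ∑ u ∈ univ.filter (fun u : Fin n => Odd (u : ℕ)), num G u =
      ((univ.filter fun v => Odd (G.degree v)).card : ℝ) := by
  unfold num
  rw [← Nat.cast_sum]
  congr 1
  rw [card_eq_sum_card_fiberwise (s := univ.filter fun v => Odd (G.degree v))
    (f := fun v => (⟨G.degree v, deg_lt G v⟩ : Fin n))
    (t := univ.filter (fun u : Fin n => Odd (u : ℕ)))]
  · refine sum_congr rfl fun u hu => ?_
    rw [mem_filter] at hu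
    congr 1
    ext v
    simp only [mem_filter, mem_univ, true_and]
    constructor
    · intro h
      exact ⟨by rw [h]; exact hu.2, Fin.ext h⟩
    · rintro ⟨h1, h2⟩
      rw [← h2]
  · intro v hv
    simpa using hv

lemma num_mem {n : ℕ} (G : SimpleGraph (Fin n)) : num G ∈ P n := by
  refine ⟨fun u => by unfold num; positivity, num_sum G, fun hn => ?_⟩
  rw [num_odd]
  have h1 := G.even_card_odd_degree_vertices
  have h2 : (univ.filter fun v => Odd (G.degree v)).card ≤ n := by
    refine (card_le_univ _).trans ?_
    rw [Fintype.card_fin]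
  have h3 : (univ.filter fun v => Odd (G.degree v)).card ≠ n := by
    intro h
    rw [h] at h1
    exact (Nat.not_even_iff_odd.2 hn) h1
  have h4 : (univ.filter fun v => Odd (G.degree v)).card + 1 ≤ n := by omega
  have h5 : (((univ.filter fun v => Odd (G.degree v)).card + 1 : ℕ) : ℝ) ≤ n := by exact_mod_cast h4
  push_cast at h5
  linarith

lemma T_inj {n : ℕ} {N M : Fin n → ℝ} (hN : ∑ u, N u = ∑ u, M u) (h : T n N = T n M) : N = M := by
  have h1 : ∀ k : Fin n, ∑ u ∈ univ.filter (fun u => k < u), N u =
      ∑ u ∈ univ.filter (fun u => k < u), M u := fun k => by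
    rw [← T_apply, ← T_apply, h]
  have h2 : ∀ k : Fin n, ∑ u ∈ univ.filter (fun u => k ≤ u), N u =
      ∑ u ∈ univ.filter (fun u => k ≤ u), M u := by
    intro k
    rcases Nat.eq_zero_or_pos (k : ℕ) with hk | hk
    · have : univ.filter (fun u : Fin n => k ≤ u) = univ := by
        ext u
        simp [Fin.le_def, hk]
      rw [this, hN]
    · have hlt : (k : ℕ) - 1 < n := by omega
      have : univ.filter (fun u : Fin n => k ≤ u) =
          univ.filter (fun u : Fin n => (⟨(k : ℕ) - 1, hlt⟩ : Fin n) < u) := by
        ext u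
        simp only [mem_filter, mem_univ, true_and, Fin.le_def, Fin.lt_def]
        omega
      rw [this, h1]
  funext k
  have h3 : ∀ F : Fin n → ℝ, ∑ u ∈ univ.filter (fun u => k ≤ u), F u =
      F k + ∑ u ∈ univ.filter (fun u => k < u), F u := by
    intro F
    have : univ.filter (fun u : Fin n => k ≤ u) = insert k (univ.filter (fun u => k < u)) := by
      ext u
      simp only [mem_filter, mem_univ, true_and, mem_insert]
      constructor
      · intro h
        rcases eq_or_lt_of_le h with h | h
        · exact Or.inl h.symm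
        · exact Or.inr h
      · rintro (h | h)
        · exact h.symm.le
        · exact h.le
    rw [this, sum_insert (by simp)]
  have h4 := h2 k
  rw [h3, h3, h1] at h4
  linarith

/-- the two kinds of vertices of the polytope -/
def e1 (n : ℕ) (r : Fin n) : Fin n → ℝ := fun u => if u = r then (n : ℝ) else 0
def e2 (n : ℕ) (r s : Fin n) : Fin n → ℝ :=
  fun u => (if u = r then (n : ℝ) - 1 else 0) + (if u = s then 1 else 0)

lemma T_e1 (n : ℕ) (r : Fin n) : T n (e1 n r) = regPt n r := by
  funext k
  rw [T_apply]
  unfold e1 regPt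
  rw [Finset.sum_ite_eq']
  simp only [mem_filter, mem_univ, true_and]
  rfl

lemma T_e2 (n : ℕ) (r s : Fin n) : T n (e2 n r s) = nearPt n r s := by
  funext k
  rw [T_apply]
  unfold e2 nearPt
  rw [sum_add_distrib, Finset.sum_ite_eq', Finset.sum_ite_eq']
  simp only [mem_filter, mem_univ, true_and]
  rfl

/-- the vertices -/
def W (n : ℕ) : Set (Fin n → ℝ) :=
  {N | (∃ r : Fin n, (Even n ∨ Even (r : ℕ)) ∧ N = e1 n r) ∨
    (Odd n ∧ ∃ r s : Fin n, Odd (r : ℕ) ∧ Even (s : ℕ) ∧ N = e2 n r s)}

/-- every degree distribution is in the hull of the vertices -/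
lemma P_sub {n : ℕ} (hn : 1 ≤ n) {N : Fin n → ℝ} (hN : N ∈ P n) : N ∈ convexHull ℝ (W n) := by
  have hn0 : (0 : ℝ) < n := by exact_mod_cast hn
  obtain ⟨h0, h1, h2⟩ := hN
  rcases Nat.even_or_odd n with he | ho
  · have key := (convex_convexHull ℝ (W n)).sum_mem (t := univ) (w := fun u => N u / n)
      (z := fun u => e1 n u) (fun u _ => div_nonneg (h0 u) hn0.le)
      (by rw [← sum_div, h1, div_self hn0.ne'])
      (fun u _ => subset_convexHull ℝ _ (Or.inl ⟨u, Or.inl he, rfl⟩))
    convert key using 1
    funext v
    rw [Finset.sum_apply]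
    simp only [Pi.smul_apply, e1, smul_eq_mul, mul_ite, mul_zero]
    rw [Finset.sum_ite_eq, if_pos (mem_univ _)]
    field_simp
  · have hO := h2 ho
    set O := ∑ u ∈ univ.filter (fun u : Fin n => Odd (u : ℕ)), N u with hOdef
    set E := ∑ u ∈ univ.filter (fun u : Fin n => ¬ Odd (u : ℕ)), N u with hEdef
    have hOE : O + E = n := by
      rw [hOdef, hEdef, sum_filter_add_sum_filter_not, h1]
    have hO0 : 0 ≤ O := sum_nonneg fun u _ => h0 u
    have hE1 : 1 ≤ E := by linarith
    have hE0 : 0 < E := by linarith
    set q : Fin n → ℝ := fun u => if Odd (u : ℕ) then 0 else N u / E with hq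
    -- the point `n q`
    have hnq : (n : ℝ) • q ∈ convexHull ℝ (W n) := by
      have key := (convex_convexHull ℝ (W n)).sum_mem
        (t := univ.filter (fun u : Fin n => ¬ Odd (u : ℕ))) (w := fun u => N u / E)
        (z := fun u => e1 n u) (fun u _ => div_nonneg (h0 u) hE0.le)
        (by rw [← sum_div, ← hEdef, div_self hE0.ne'])
        (fun u hu => by
          rw [mem_filter] at hu
          exact subset_convexHull ℝ _ (Or.inl ⟨u, Or.inr (Nat.not_odd_iff_even.1 hu.2), rfl⟩))
      convert key using 1
      funext v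
      rw [Finset.sum_apply]
      simp only [Pi.smul_apply, e1, smul_eq_mul, mul_ite, mul_zero]
      rw [Finset.sum_ite_eq]
      simp only [hq, mem_filter, mem_univ, true_and]
      by_cases hv : Odd (v : ℕ)
      · simp [hv]
      · simp [hv]; ring
    -- the points `(n - 1) e_r + q`
    have hrq : ∀ r : Fin n, Odd (r : ℕ) →
        (fun u => (if u = r then (n : ℝ) - 1 else 0) + q u) ∈ convexHull ℝ (W n) := by
      intro r hr
      have key := (convex_convexHull ℝ (W n)).sum_mem
        (t := univ.filter (fun u : Fin n => ¬ Odd (u : ℕ))) (w := fun u => N u / E)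
        (z := fun u => e2 n r u) (fun u _ => div_nonneg (h0 u) hE0.le)
        (by rw [← sum_div, ← hEdef, div_self hE0.ne'])
        (fun u hu => by
          rw [mem_filter] at hu
          exact subset_convexHull ℝ _
            (Or.inr ⟨ho, r, u, hr, Nat.not_odd_iff_even.1 hu.2, rfl⟩))
      convert key using 1
      funext v
      rw [Finset.sum_apply]
      simp only [Pi.smul_apply, e2, smul_eq_mul, mul_add, mul_ite, mul_zero, mul_one]
      rw [sum_add_distrib, Finset.sum_ite_eq]
      have hsum : ∑ u ∈ univ.filter (fun u : Fin n => ¬ Odd (u : ℕ)), N u / E = 1 := by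
        rw [← sum_div, ← hEdef, div_self hE0.ne']
      by_cases hvr : v = r
      · simp only [hvr, if_true, ← sum_mul, hsum, one_mul, hq, mem_filter, mem_univ, true_and, hr,
          not_true, if_false]
      · simp only [hvr, if_false, sum_const_zero, hq, mem_filter, mem_univ, true_and]
        by_cases hv : Odd (v : ℕ)
        · simp [hv]
        · simp [hv]
    rcases eq_or_lt_of_le hO0 with hz | hz
    · -- no odd degrees
      have hNq : N = (n : ℝ) • q := by
        funext u
        simp only [Pi.smul_apply, smul_eq_mul, hq]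
        by_cases hu : Odd (u : ℕ)
        · simp only [hu, if_true, mul_zero]
          have := (sum_eq_zero_iff_of_nonneg (fun u _ => h0 u)).1 hz.symm u (by simp [hu])
          exact this
        · simp only [hu, if_false]
          have : E = n := by linarith
          rw [this]
          field_simp
      rw [hNq]
      exact hnq
    · have hn1 : (0 : ℝ) < n - 1 := by linarith
      -- the point `(n - 1) p + q`
      have hpq : (fun u : Fin n =>
          (if Odd (u : ℕ) then ((n : ℝ) - 1) * (N u / O) else 0) + q u) ∈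
          convexHull ℝ (W n) := by
        have hsum : ∑ u ∈ univ.filter (fun u : Fin n => Odd (u : ℕ)), N u / O = 1 := by
          rw [← sum_div, ← hOdef, div_self hz.ne']
        have key := (convex_convexHull ℝ (W n)).sum_mem
          (t := univ.filter (fun u : Fin n => Odd (u : ℕ))) (w := fun u => N u / O)
          (z := fun r => (fun u => (if u = r then (n : ℝ) - 1 else 0) + q u))
          (fun u _ => div_nonneg (h0 u) hz.le) hsum
          (fun u hu => by
            rw [mem_filter] at hu
            exact hrq u hu.2)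
        convert key using 1
        funext v
        rw [Finset.sum_apply]
        simp only [Pi.smul_apply, smul_eq_mul, mul_add, mul_ite, mul_zero]
        rw [sum_add_distrib, Finset.sum_ite_eq, ← sum_mul, hsum, one_mul]
        simp only [mem_filter, mem_univ, true_and]
        by_cases hv : Odd (v : ℕ)
        · simp [hv]; ring
        · simp [hv]
      have hlam0 : 0 ≤ O / (n - 1) := by positivity
      have hlam1 : 0 ≤ 1 - O / (n - 1) := by
        rw [sub_nonneg, div_le_one hn1]
        exact hO
      have key := (convex_convexHull ℝ (W n)) hpq hnq hlam0 hlam1 (by ring)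
      convert key using 1
      funext v
      simp only [Pi.add_apply, Pi.smul_apply, smul_eq_mul, hq]
      have hEn : E = n - O := by linarith
      by_cases hv : Odd (v : ℕ)
      · simp only [hv, if_true, mul_zero, add_zero]
        field_simp
      · simp only [hv, if_false, zero_add]
        have hE' : (n : ℝ) - O ≠ 0 := by rw [← hEn]; exact hE0.ne'
        rw [hEn]
        field_simp
        ring

/-- every vertex is realised by a graph with the corresponding degrees -/
lemma num_of_regular {n : ℕ} {G : SimpleGraph (Fin n)} {r : Fin n}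
    (h : ∀ v, G.degree v = (r : ℕ)) : num G = e1 n r := by
  funext u
  unfold num e1
  by_cases hu : u = r
  · subst hu
    simp [h]
  · have : ∀ v, ¬ (G.degree v = (u : ℕ)) := by
      intro v hv
      rw [h v] at hv
      exact hu (Fin.ext hv.symm)
    simp [hu, this]

lemma num_of_near {n : ℕ} {G : SimpleGraph (Fin n)} {r s : Fin n} {v₀ : Fin n} (hrs : r ≠ s)
    (hs : G.degree v₀ = (s : ℕ)) (h : ∀ v, v ≠ v₀ → G.degree v = (r : ℕ)) : num G = e2 n r s := by
  funext u
  unfold num e2
  by_cases hu : u = r
  · subst hu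
    have h1 : (univ.filter fun v => G.degree v = (u : ℕ)) = univ.erase v₀ := by
      ext v
      simp only [mem_filter, mem_univ, true_and, mem_erase, and_true]
      constructor
      · rintro h2 rfl
        rw [hs] at h2
        exact hrs (Fin.ext h2.symm)
      · intro h2; exact h v h2
    rw [h1, card_erase_of_mem (mem_univ _), card_univ, Fintype.card_fin]
    have h2 : 1 ≤ n := by
      have := v₀.2
      omega
    rw [Nat.cast_sub h2]
    simp [hrs]
  · by_cases hus : u = s
    · subst hus
      have h1 : (univ.filter fun v => G.degree v = (u : ℕ)) = {v₀} := by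
        ext v
        simp only [mem_filter, mem_univ, true_and, mem_singleton]
        constructor
        · intro h2
          by_contra hne
          rw [h v hne] at h2
          exact hu (Fin.ext h2.symm)
        · rintro rfl; exact hs
      rw [h1]
      simp [hu]
    · have h1 : (univ.filter fun v => G.degree v = (u : ℕ)) = ∅ := by
        rw [filter_eq_empty_iff]
        intro v _ hv
        by_cases hne : v = v₀
        · rw [hne, hs] at hv
          exact hus (Fin.ext hv.symm)
        · rw [h v hne] at hv
          exact hu (Fin.ext hv.symm)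
      rw [h1]
      simp [hu, hus]

lemma W_real {n : ℕ} {N : Fin n → ℝ} (hN : N ∈ W n) : ∃ G : SimpleGraph (Fin n), num G = N := by
  rcases hN with ⟨r, hr, rfl⟩ | ⟨hn, r, s, hr, hs, rfl⟩
  · obtain ⟨G, hG⟩ := Pool.Agent.Q133.CircGraph.exists_regular n r r.2 hr
    exact ⟨G, num_of_regular hG⟩
  · obtain ⟨G, v, hv, hw⟩ := Pool.Agent.Q133.CircGraph.exists_near n r s hn hr hs r.2 s.2
    refine ⟨G, num_of_near ?_ hv hw⟩
    rintro rfl
    exact (Nat.not_even_iff_odd.2 hr) hs

/-- the vertices are extreme points of the polytope -/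
lemma W_extreme {n : ℕ} {N x y : Fin n → ℝ} (hN : N ∈ W n) (hx : x ∈ P n) (hy : y ∈ P n)
    {a b : ℝ} (ha : 0 < a) (hb : 0 < b) (hab : a + b = 1) (h : a • x + b • y = N) : x = N := by
  have hpt : ∀ u, a * x u + b * y u = N u := fun u => by
    have := congrFun h u
    simpa using this
  have hzero : ∀ u, N u = 0 → x u = 0 ∧ y u = 0 := by
    intro u hu
    have h1 := hpt u
    rw [hu] at h1
    have h2 := mul_nonneg ha.le (hx.1 u)
    have h3 := mul_nonneg hb.le (hy.1 u)
    constructor
    · have : a * x u = 0 := by linarith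
      rcases mul_eq_zero.1 this with h | h
      · exact absurd h ha.ne'
      · exact h
    · have : b * y u = 0 := by linarith
      rcases mul_eq_zero.1 this with h | h
      · exact absurd h hb.ne'
      · exact h
  rcases hN with ⟨r, hr, rfl⟩ | ⟨hn, r, s, hr, hs, rfl⟩
  · have h1 : ∀ u, u ≠ r → x u = 0 := fun u hu => (hzero u (by simp [e1, hu])).1
    have h2 : x r = n := by
      rw [← hx.2.1]
      rw [Finset.sum_eq_single r (fun u _ hu => h1 u hu) (fun h => absurd (mem_univ _) h)]
    funext u
    by_cases hu : u = r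
    · subst hu; simp [e1, h2]
    · simp [e1, hu, h1 u hu]
  · have hrs : r ≠ s := by
      rintro rfl
      exact (Nat.not_even_iff_odd.2 hr) hs
    have h1 : ∀ u, u ≠ r → u ≠ s → x u = 0 ∧ y u = 0 := fun u hu hu' =>
      hzero u (by simp [e2, hu, hu'])
    have h2 : ∀ z : Fin n → ℝ, z ∈ P n → (∀ u, u ≠ r → u ≠ s → z u = 0) →
        z r + z s = n ∧ z r ≤ n - 1 := by
      intro z hz hz0
      constructor
      · rw [← hz.2.1]
        rw [← Finset.sum_subset (s₁ := {r, s}) (subset_univ _)]
        · rw [sum_pair hrs]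
        · intro u _ hu
          rw [mem_insert, mem_singleton, not_or] at hu
          exact hz0 u hu.1 hu.2
      · refine le_trans ?_ (hz.2.2 hn)
        exact single_le_sum (f := z) (fun u _ => hz.1 u) (by simp [hr])
    obtain ⟨hx1, hx2⟩ := h2 x hx fun u hu hu' => (h1 u hu hu').1
    obtain ⟨hy1, hy2⟩ := h2 y hy fun u hu hu' => (h1 u hu hu').2
    have h3 := hpt r
    have h4 : e2 n r s r = n - 1 := by simp [e2, hrs]
    rw [h4] at h3
    have h5 : x r = n - 1 := by
      have e1 : a * (((n : ℝ) - 1) - x r) + b * (((n : ℝ) - 1) - y r) = 0 := by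
        have : a * ((n : ℝ) - 1) + b * ((n : ℝ) - 1) = n - 1 := by rw [← add_mul, hab, one_mul]
        linarith
      have e2 : 0 ≤ a * (((n : ℝ) - 1) - x r) := mul_nonneg ha.le (by linarith)
      have e3 : 0 ≤ b * (((n : ℝ) - 1) - y r) := mul_nonneg hb.le (by linarith)
      have e4 : a * (((n : ℝ) - 1) - x r) = 0 := by linarith
      rcases mul_eq_zero.1 e4 with h | h
      · exact absurd h ha.ne'
      · linarith
    funext u
    by_cases hu : u = r
    · subst hu; rw [h5, h4]
    · by_cases hu' : u = s
      · subst hu'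
        simp only [e2, hu, if_false, if_true, zero_add]
        linarith
      · rw [(h1 u hu hu').1]
        simp [e2, hu, hu']

lemma hull_sub (n : ℕ) : hull n ⊆ T n '' P n := by
  apply convexHull_min
  · rintro _ ⟨G, rfl⟩
    exact ⟨num G, num_mem G, (conj_eq G).symm⟩
  · exact (P_convex n).linear_image (T n)

lemma W_sum {n : ℕ} {N : Fin n → ℝ} (hN : N ∈ W n) : ∑ u, N u = n := by
  obtain ⟨G, rfl⟩ := W_real hN
  exact num_sum G

/-- the extreme points are the images of the vertices -/
lemma extreme_eq (n : ℕ) (hn : 1 ≤ n) : (hull n).extremePoints ℝ = T n '' W n := by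
  apply Set.Subset.antisymm
  · intro x hx
    have hsub : T n '' W n ⊆ hull n := by
      rintro _ ⟨N, hN, rfl⟩
      obtain ⟨G, rfl⟩ := W_real hN
      rw [← conj_eq]
      exact subset_convexHull ℝ _ ⟨G, rfl⟩
    have hx1 : x ∈ convexHull ℝ (T n '' W n) := by
      obtain ⟨G, rfl⟩ := extremePoints_convexHull_subset hx
      rw [conj_eq, ← LinearMap.image_convexHull]
      exact ⟨num G, P_sub hn (num_mem G), rfl⟩
    have hsub2 : convexHull ℝ (T n '' W n) ⊆ hull n :=
      convexHull_min hsub (convex_convexHull ℝ _)
    have hx2 : x ∈ (convexHull ℝ (T n '' W n)).extremePoints ℝ :=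
      inter_extremePoints_subset_extremePoints_of_subset hsub2 ⟨hx1, hx⟩
    exact extremePoints_convexHull_subset hx2
  · rintro _ ⟨N, hN, rfl⟩
    rw [mem_extremePoints]
    refine ⟨?_, ?_⟩
    · obtain ⟨G, rfl⟩ := W_real hN
      rw [← conj_eq]
      exact subset_convexHull ℝ _ ⟨G, rfl⟩
    · intro x hx y hy hseg
      obtain ⟨X, hX, rfl⟩ := hull_sub n hx
      obtain ⟨Y, hY, rfl⟩ := hull_sub n hy
      obtain ⟨a, b, ha, hb, hab, h⟩ := hseg
      have h1 : T n (a • X + b • Y) = T n N := by rw [map_add, map_smul, map_smul, h]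
      have h2 : a • X + b • Y = N := by
        apply T_inj _ h1
        rw [W_sum hN]
        exact (P_convex n hX hY ha.le hb.le hab).2.1
      have h3 := W_extreme hN hX hY ha hb hab h2
      have h4 := W_extreme hN hY hX hb ha (by rw [add_comm]; exact hab)
        (by rw [add_comm]; exact h2)
      rw [h3, h4]
      exact ⟨rfl, rfl⟩

/-- the graphs realising a vertex of the first kind -/
lemma regular_of_num {n : ℕ} {G : SimpleGraph (Fin n)} {r : Fin n} (h : num G = e1 n r) :
    ∀ v, G.degree v = (r : ℕ) := by
  intro v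
  by_contra hne
  have h1 := congrFun h ⟨G.degree v, deg_lt G v⟩
  have hne' : (⟨G.degree v, deg_lt G v⟩ : Fin n) ≠ r := fun h => hne (by rw [← h])
  unfold num e1 at h1
  rw [if_neg hne'] at h1
  have h2 : (univ.filter fun w => G.degree w = G.degree v).card = 0 := by exact_mod_cast h1
  rw [card_eq_zero, filter_eq_empty_iff] at h2
  exact h2 (mem_univ v) rfl

lemma near_of_num {n : ℕ} {G : SimpleGraph (Fin n)} {r s : Fin n} (hrs : r ≠ s)
    (h : num G = e2 n r s) : ∃ v, G.degree v = (s : ℕ) ∧ ∀ w, w ≠ v → G.degree w = (r : ℕ) := by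
  have hs := congrFun h s
  have hs' : (univ.filter fun w => G.degree w = (s : ℕ)).card = 1 := by
    unfold num e2 at hs
    rw [if_neg (Ne.symm hrs), if_pos rfl, zero_add] at hs
    exact_mod_cast hs
  obtain ⟨v, hv⟩ := card_eq_one.1 hs'
  have hvs : G.degree v = (s : ℕ) := by
    have : v ∈ univ.filter fun w => G.degree w = (s : ℕ) := by rw [hv]; simp
    simpa using this
  refine ⟨v, hvs, fun w hw => ?_⟩
  by_contra hne
  have h1 := congrFun h ⟨G.degree w, deg_lt G w⟩
  have hne1 : (⟨G.degree w, deg_lt G w⟩ : Fin n) ≠ r := fun h => hne (by rw [← h])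
  have hne2 : (⟨G.degree w, deg_lt G w⟩ : Fin n) ≠ s := by
    intro h
    have h2 : w ∈ univ.filter fun w => G.degree w = (s : ℕ) := by
      rw [mem_filter]
      exact ⟨mem_univ _, by rw [← h]⟩
    rw [hv, mem_singleton] at h2
    exact hw h2
  unfold num e2 at h1
  rw [if_neg hne1, if_neg hne2, add_zero] at h1
  have h2 : (univ.filter fun x => G.degree x = G.degree w).card = 0 := by exact_mod_cast h1
  rw [card_eq_zero, filter_eq_empty_iff] at h2
  exact h2 (mem_univ w) rfl

/-- **The extreme points of the convex hull of the conjugate degree sequences of the graphs on `n`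
vertices, and the graphs which realise them.**  If `n` is even, the extreme points are the `n`
points `regPt n r`, `r < n`, and the graphs are the regular ones; if `n` is odd, they are the points
`regPt n r` with `r` even and the points `nearPt n r s` with `r` odd and `s` even, and the graphs
are the regular ones and those in which all vertices but one have the same odd degree and the
remaining vertex has even degree. -/
theorem result (n : ℕ) (hn : 1 ≤ n) :
    (hull n).extremePoints ℝ =
      {x | ∃ r < n, (Even n ∨ Even r) ∧ x = regPt n r} ∪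
      {x | Odd n ∧ ∃ r s, r < n ∧ s < n ∧ Odd r ∧ Even s ∧ x = nearPt n r s} ∧
    (∀ x ∈ (hull n).extremePoints ℝ, ∃ G : SimpleGraph (Fin n), conj G = x) ∧
    ∀ G : SimpleGraph (Fin n), conj G ∈ (hull n).extremePoints ℝ ↔
      (∃ r, ∀ v, G.degree v = r) ∨
      (Odd n ∧ ∃ v, Even (G.degree v) ∧ ∃ r, Odd r ∧ ∀ w, w ≠ v → G.degree w = r) := by
  refine ⟨?_, ?_, ?_⟩
  · rw [extreme_eq n hn]
    ext x
    constructor
    · rintro ⟨N, ⟨r, hr, rfl⟩ | ⟨ho, r, s, hr, hs, rfl⟩, rfl⟩
      · exact Or.inl ⟨r, r.2, hr, T_e1 n r⟩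
      · exact Or.inr ⟨ho, r, s, r.2, s.2, hr, hs, T_e2 n r s⟩
    · rintro (⟨r, hr, hpar, rfl⟩ | ⟨ho, r, s, hr, hs, hro, hse, rfl⟩)
      · exact ⟨e1 n ⟨r, hr⟩, Or.inl ⟨⟨r, hr⟩, hpar, rfl⟩, T_e1 n ⟨r, hr⟩⟩
      · exact ⟨e2 n ⟨r, hr⟩ ⟨s, hs⟩, Or.inr ⟨ho, ⟨r, hr⟩, ⟨s, hs⟩, hro, hse, rfl⟩,
          T_e2 n ⟨r, hr⟩ ⟨s, hs⟩⟩
  · intro x hx
    rw [extreme_eq n hn] at hx
    obtain ⟨N, hN, rfl⟩ := hx
    obtain ⟨G, rfl⟩ := W_real hN
    exact ⟨G, conj_eq G⟩
  · intro G
    rw [extreme_eq n hn]
    constructor
    · rintro ⟨N, hN, hTN⟩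
      have hNG : num G = N := by
        apply T_inj
        · rw [num_sum, W_sum hN]
        · rw [← conj_eq, hTN]
      rcases hN with ⟨r, hr, rfl⟩ | ⟨ho, r, s, hr, hs, rfl⟩
      · exact Or.inl ⟨r, regular_of_num hNG⟩
      · have hrs : r ≠ s := by
          rintro rfl
          exact (Nat.not_even_iff_odd.2 hr) hs
        obtain ⟨v, hv, hw⟩ := near_of_num hrs hNG
        exact Or.inr ⟨ho, v, by rw [hv]; exact hs, r, hr, hw⟩
    · rintro (⟨r, hr⟩ | ⟨ho, v, hv, r, hr, hw⟩)
      · have hrn : r < n := by
          have := deg_lt G ⟨0, hn⟩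
          rwa [hr] at this
        have hpar : Even n ∨ Even r := by
          by_contra hcon
          push Not at hcon
          obtain ⟨h1, h2⟩ := hcon
          rw [Nat.not_even_iff_odd] at h1 h2
          have h3 := G.even_card_odd_degree_vertices
          have h4 : (univ.filter fun v => Odd (G.degree v)) = univ := by
            ext v
            simp [hr, h2]
          rw [h4, card_univ, Fintype.card_fin] at h3
          exact (Nat.not_even_iff_odd.2 h1) h3
        refine ⟨num G, ?_, (conj_eq G).symm⟩
        exact Or.inl ⟨⟨r, hrn⟩, hpar, num_of_regular (r := ⟨r, hrn⟩) hr⟩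
      · -- there is another vertex
        by_cases h1 : n = 1
        · -- the graph with one vertex is regular
          subst h1
          refine ⟨num G, ?_, (conj_eq G).symm⟩
          have h2 : ∀ w, G.degree w = ((0 : Fin 1) : ℕ) := by
            intro w
            have := deg_lt G w
            simp only [Fin.val_zero]
            omega
          exact Or.inl ⟨0, Or.inr (by simp), num_of_regular h2⟩
        · obtain ⟨w, hwv⟩ : ∃ w : Fin n, w ≠ v := by
            by_contra hcon
            push Not at hcon
            have h2 := hcon ⟨0, by omega⟩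
            have h3 := hcon ⟨1, by omega⟩
            rw [← h2] at h3
            simp at h3
          have hrn : r < n := by
            have := deg_lt G w
            rwa [hw w hwv] at this
          refine ⟨num G, ?_, (conj_eq G).symm⟩
          refine Or.inr ⟨ho, ⟨r, hrn⟩, ⟨G.degree v, deg_lt G v⟩, hr, hv, ?_⟩
          apply num_of_near (v₀ := v)
          · intro h
            rw [Fin.mk.injEq] at h
            rw [h] at hr
            exact (Nat.not_even_iff_odd.2 hr) hv
          · rfl
          · exact hw

end Pool.Agent.Results.MP_1867d3_co.ExtremePoints
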